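import Pool.Agent.V1157.BD.Defs

/-!
# Frobenius operators on a Weil cohomology: definitions
-/

open CategoryTheory AlgebraicGeometry

universe u v w

namespace Pool.Agent.V202T

open Pool.Agent.H914 Pool.Agent.H914.VarClass Pool.Agent.H914.VarClass.Obj Pool.Agent.W492.BB

variable {k : Type u} [Field k] {𝒱 : VarClass k} {C : TheoryData.{u, v, 0} 𝒱 ℚ} {K : Type w}
  [Field K]

/-- The multiple `c x` of the class `x`. -/
def sm (H : WeilTheoryData.{u, v, w} C K) {X : 𝒱.Obj} (c : K) (x : H.A X) : H.A X := c • x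

/-- Linear operators `F X` on `H(X)` for all varieties `X`, with the formal properties of the
Frobenius operators on the `ℓ`-adic cohomology of varieties over a field with `q` elements (Tate
twists are suppressed): they preserve the degrees, commute with pull-backs, commute with
push-forwards `f_*`, `f : X ⟶ Y`, up to the factor `q ^ (dim Y - dim X)`, and act on the classes of
cycles of codimension `r` as multiplication by `q ^ r`. -/
structure Frobenius (H : WeilTheoryData.{u, v, w} C K) (q : K) where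
  /-- the operator on `H(X)` -/
  F : ∀ X : 𝒱.Obj, H.A X → H.A X
  add : ∀ (X : 𝒱.Obj) (s t : H.A X), F X (s + t) = F X s + F X t
  smul : ∀ (X : 𝒱.Obj) (c : K) (t : H.A X), F X (sm H c t) = sm H c (F X t)
  deg : ∀ (X : 𝒱.Obj) (i : ℤ) (t : H.A X), H.Deg i t → H.Deg i (F X t)
  pull : ∀ {X Y : 𝒱.Obj} (f : X ⟶ Y) (t : H.A Y), F X (H.up f t) = H.up f (F Y t)
  push : ∀ {X Y : 𝒱.Obj} (f : X ⟶ Y) (t : H.A X),
    sm H (q ^ X.dim) (F Y (H.down f t)) = sm H (q ^ Y.dim) (H.down f (F X t))
  cycle : ∀ {X : 𝒱.Obj} {r : ℕ} {z : C.A X}, C.Deg r z → F X (H.cl z) = sm H (q ^ r) (H.cl z)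

variable {H : WeilTheoryData.{u, v, w} C K} {q : K}

/-- The space spanned by the classes of the cycles of codimension one. -/
def divisorSpan (H : WeilTheoryData.{u, v, w} C K) (Y : 𝒱.Obj) : Submodule K (H.A Y) :=
  Submodule.span K {y : H.A Y | ∃ z : C.A Y, C.Deg 1 z ∧ y = H.cl z}

/-- The dimension of the space spanned by the classes of the cycles of codimension one. -/
noncomputable def divRank (H : WeilTheoryData.{u, v, w} C K) (Y : 𝒱.Obj) : ℕ :=
  Module.finrank K (divisorSpan H Y)

/-- The Frobenius operator on `H(Y)` as a linear map. -/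
def Frobenius.lin (Φ : Frobenius H q) (Y : 𝒱.Obj) : H.A Y →ₗ[K] H.A Y where
  toFun := Φ.F Y
  map_add' := Φ.add Y
  map_smul' := Φ.smul Y

/-- `F - c`. -/
def Frobenius.op (Φ : Frobenius H q) (X : 𝒱.Obj) (c : K) : Module.End K (H.A X) :=
  Φ.lin X - c • LinearMap.id

/-- The class `F t - q t`. -/
def Frobenius.sub (Φ : Frobenius H q) (Y : 𝒱.Obj) (t : H.A Y) : H.A Y := Φ.F Y t - sm H q t

lemma Frobenius.sub_iter (Φ : Frobenius H q) (Y : 𝒱.Obj) (N : ℕ) (t : H.A Y) :
    (Φ.sub Y)^[N] t = ((Φ.op Y q) ^ N) t := by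
  induction N generalizing t with
  | zero => rfl
  | succ N ih =>
    rw [Function.iterate_succ_apply, ih, pow_succ, Module.End.mul_apply]
    rfl

/-- The classes in `H^2(Y)` which some power of `F - q` maps to zero: the generalised eigenspace of
the Frobenius operator on `H^2(Y)` for the eigenvalue `q`. -/
def Frobenius.gen (Φ : Frobenius H q) (Y : 𝒱.Obj) : Submodule K (H.A Y) where
  carrier := {t | H.Deg 2 t ∧ ∃ N : ℕ, (Φ.sub Y)^[N] t = 0}
  zero_mem' := ⟨Submodule.zero_mem _, 0, rfl⟩
  add_mem' := by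
    rintro s t ⟨h1, M, h2⟩ ⟨h3, N, h4⟩
    refine ⟨Submodule.add_mem _ h1 h3, M + N, ?_⟩
    rw [Frobenius.sub_iter] at h2 h4 ⊢
    have e1 : ((Φ.op Y q) ^ (M + N)) s = 0 := by
      rw [add_comm, pow_add, Module.End.mul_apply, h2, map_zero]
    have e2 : ((Φ.op Y q) ^ (M + N)) t = 0 := by
      rw [pow_add, Module.End.mul_apply, h4, map_zero]
    rw [map_add, e1, e2, add_zero]
  smul_mem' := by
    rintro c t ⟨h1, N, h2⟩
    refine ⟨Submodule.smul_mem _ c h1, N, ?_⟩
    rw [Frobenius.sub_iter] at h2 ⊢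
    rw [map_smul, h2, smul_zero]

/-- The classes in `H^2(Y)` on which the Frobenius operator is the multiplication by `q`: the
classes in `H^2(Y)(1)` invariant under the Galois group. -/
def Frobenius.invariants (Φ : Frobenius H q) (Y : 𝒱.Obj) : Submodule K (H.A Y) where
  carrier := {t | H.Deg 2 t ∧ Φ.F Y t = sm H q t}
  zero_mem' := ⟨Submodule.zero_mem _, by
    have h1 := Φ.smul Y 0 0
    simp only [sm, zero_smul] at h1
    simp only [sm, smul_zero]
    exact h1⟩
  add_mem' := by
    rintro s t ⟨h1, h2⟩ ⟨h3, h4⟩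
    exact ⟨Submodule.add_mem _ h1 h3, by rw [Φ.add, h2, h4, sm, sm, sm, smul_add]⟩
  smul_mem' := by
    rintro c t ⟨h1, h2⟩
    refine ⟨Submodule.smul_mem _ c h1, ?_⟩
    have h3 := Φ.smul Y c t
    rw [h2] at h3
    simp only [sm] at h3 ⊢
    rw [h3, smul_comm]

/-- The dimension of the space of invariant classes. -/
noncomputable def Frobenius.invRank (Φ : Frobenius H q) (Y : 𝒱.Obj) : ℕ :=
  Module.finrank K (Φ.invariants Y)

/-- The invariant classes are the combinations of the classes of cycles of codimension one. -/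
def Frobenius.Spanned (Φ : Frobenius H q) (Y : 𝒱.Obj) : Prop :=
  divisorSpan H Y = Φ.invariants Y

/-- The dimension of the generalised eigenspace for `q`: the multiplicity of `q` as a root of the
characteristic polynomial `Q_2(Y, T)` of the Frobenius operator on `H^2(Y)`. -/
noncomputable def Frobenius.mult (Φ : Frobenius H q) (Y : 𝒱.Obj) : ℕ :=
  Module.finrank K (Φ.gen Y)

end Pool.Agent.V202T
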