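import Pool.Agent.V202T.FrobDefs
import Pool.Agent.V1157.BD.Main

/-!
# Tate's conjecture for divisors and the multiplicity of `q`
-/

open CategoryTheory AlgebraicGeometry

universe u v w

namespace Pool.Agent.V202T

open Pool.Agent.H914 Pool.Agent.H914.VarClass Pool.Agent.H914.VarClass.Obj Pool.Agent.W492.BB
  Pool.Agent.TH133 Pool.Agent.V1157.BD

section Lin

variable {K : Type*} {E : Type*} [Field K] [AddCommGroup E] [Module K E] [FiniteDimensional K E]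

lemma exists_combo (V G : Submodule K E) (hVG : V ≤ G) (D : ℕ)
    (h : Module.finrank K G ≤ Module.finrank K V + D) (t : Fin (D + 1) → E) (ht : ∀ i, t i ∈ G) :
    ∃ c : Fin (D + 1) → K, c ≠ 0 ∧ ∑ i, c i • t i ∈ V := by
  by_contra hcon
  push Not at hcon
  let φ : ((Fin (D + 1) → K) × V) →ₗ[K] G :=
    LinearMap.codRestrict G ((Fintype.linearCombination K t).coprod V.subtype) (by
      rintro ⟨c, v⟩
      rw [LinearMap.coprod_apply, Fintype.linearCombination_apply]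
      exact G.add_mem (G.sum_mem fun i _ => G.smul_mem _ (ht i)) (hVG v.2))
  have hinj : Function.Injective φ := by
    rw [← LinearMap.ker_eq_bot, LinearMap.ker_eq_bot']
    rintro ⟨c, v⟩ hcv
    have h1 : ∑ i, c i • t i + (v : E) = 0 := by
      have := congrArg Subtype.val hcv
      simpa [φ, LinearMap.coprod_apply, Fintype.linearCombination_apply] using this
    have hc : c = 0 := by
      by_contra hc
      apply hcon c hc
      rw [eq_neg_of_add_eq_zero_left h1]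
      exact V.neg_mem v.2
    subst hc
    have hv : (v : E) = 0 := by simpa using h1
    ext
    · rfl
    · exact hv
  have h2 := LinearMap.finrank_le_finrank_of_injective hinj
  rw [Module.finrank_prod, Module.finrank_fin_fun] at h2
  omega

end Lin

variable {k : Type u} [Field k] {𝒱 : VarClass k} {C : TheoryData.{u, v, 0} 𝒱 ℚ}
  [hC : IsChowProj C] {K : Type w} [Field K] {H : WeilTheoryData.{u, v, w} C K}
  [hH : IsWeilProj H] {q : K}

omit hC hH in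
lemma op_apply (Φ : Frobenius H q) (X : 𝒱.Obj) (c : K) (t : H.A X) :
    Φ.op X c t = Φ.F X t - c • t := rfl

omit hC hH in
lemma pow_pull (Φ : Frobenius H q) {X Y : 𝒱.Obj} (f : X ⟶ Y) (r N : ℕ) (t : H.A Y) :
    ((Φ.op X (q ^ r)) ^ N) (H.up f t) =
      H.up f (((Φ.op Y (q ^ r)) ^ N) t) := by
  have h1 : (Φ.op X (q ^ r)).comp (H.pull f).toLinearMap =
      (H.pull f).toLinearMap.comp (Φ.op Y (q ^ r)) := by
    ext a
    have h2 := Φ.pull f a
    rw [LinearMap.comp_apply, LinearMap.comp_apply, AlgHom.toLinearMap_apply,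
      AlgHom.toLinearMap_apply, op_apply, op_apply, map_sub, map_smul]
    rw [h2]
  have h3 := Module.End.commute_pow_left_of_commute h1 N
  exact LinearMap.congr_fun h3 t

omit hC hH in
lemma pow_push (Φ : Frobenius H q) (hq : q ≠ 0) {X Y : 𝒱.Obj} (f : X ⟶ Y) {r s : ℕ}
    (hrs : r + Y.dim = s + X.dim) (N : ℕ) (t : H.A X)
    (ht : ((Φ.op X (q ^ r)) ^ N) t = 0) :
    ((Φ.op Y (q ^ s)) ^ N) (H.down f t) = 0 := by
  have h1 : (q ^ X.dim • (Φ.op Y (q ^ s))).comp (H.push f) =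
      (H.push f).comp (q ^ Y.dim • (Φ.op X (q ^ r))) := by
    ext a
    have h2 : q ^ X.dim • (Φ.F Y (H.down f a)) = q ^ Y.dim • (H.down f (Φ.F X a)) := Φ.push f a
    rw [LinearMap.comp_apply, LinearMap.comp_apply, LinearMap.smul_apply, LinearMap.smul_apply,
      op_apply, op_apply, map_smul, map_sub, map_smul, smul_sub, smul_sub, h2, smul_smul, smul_smul]
    have h3 : q ^ X.dim * q ^ s = q ^ Y.dim * q ^ r := by
      rw [← pow_add, ← pow_add]
      congr 1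
      omega
    rw [h3]
  have h4 := LinearMap.congr_fun (Module.End.commute_pow_left_of_commute h1 N) t
  rw [LinearMap.comp_apply, LinearMap.comp_apply, smul_pow, smul_pow, LinearMap.smul_apply,
    LinearMap.smul_apply, ht, smul_zero, map_zero] at h4
  exact (smul_eq_zero.1 h4).resolve_left (pow_ne_zero _ (pow_ne_zero _ hq))

lemma deg_push {X Y : 𝒱.Obj} (f : X ⟶ Y) {r s : ℕ} (hrs : r + Y.dim = s + X.dim) {t : H.A X}
    (ht : H.Deg (2 * r) t) : H.Deg (2 * s) (H.down f t) := by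
  have h1 := H.push_mem f ht
  have h2 : (2 * (r : ℤ) + 2 * ((Y.dim : ℤ) - X.dim)) = 2 * s := by
    have : (r : ℤ) + Y.dim = s + X.dim := by exact_mod_cast hrs
    linarith
  rwa [h2] at h1

/-- The generalised eigenspaces. -/
def genFam (Φ : Frobenius H q) (hq : q ≠ 0) : ClassFamily H where
  Mem X r t := H.Deg (2 * r) t ∧ ∃ N : ℕ, ((Φ.op X (q ^ r)) ^ N) t = 0
  deg h := h.1
  pull f r t h := by
    obtain ⟨h1, N, h2⟩ := h
    exact ⟨H.pull_mem f h1, N, by rw [pow_pull, h2]; exact map_zero _⟩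
  push f r s t hrs h := by
    obtain ⟨h1, N, h2⟩ := h
    exact ⟨deg_push f hrs h1, N, pow_push Φ hq f hrs N t h2⟩

/-- The eigenspaces. -/
def eigFam (Φ : Frobenius H q) (hq : q ≠ 0) : ClassFamily H where
  Mem X r t := H.Deg (2 * r) t ∧ ((Φ.op X (q ^ r)) ^ 1) t = 0
  deg h := h.1
  pull f r t h := ⟨H.pull_mem f h.1, by rw [pow_pull, h.2]; exact map_zero _⟩
  push f r s t hrs h := ⟨deg_push f hrs h.1, pow_push Φ hq f hrs 1 t h.2⟩

lemma mem_gen (Φ : Frobenius H q) (hq : q ≠ 0) (Y : 𝒱.Obj) (t : H.A Y) :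
    t ∈ Φ.gen Y ↔ (genFam Φ hq).Mem Y 1 t := by
  show H.Deg 2 t ∧ (∃ N : ℕ, (Φ.sub Y)^[N] t = 0) ↔
    H.Deg (2 * ((1 : ℕ) : ℤ)) t ∧ ∃ N : ℕ, ((Φ.op Y (q ^ 1)) ^ N) t = 0
  have e2 : (2 * ((1 : ℕ) : ℤ)) = 2 := by norm_num
  rw [e2, pow_one q]
  simp only [Frobenius.sub_iter]

omit hC hH in
lemma mem_inv (Φ : Frobenius H q) (Y : 𝒱.Obj) (t : H.A Y) :
    t ∈ Φ.invariants Y ↔ H.Deg 2 t ∧ ((Φ.op Y q) ^ 1) t = 0 := by
  rw [pow_one, op_apply, sub_eq_zero]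
  rfl

lemma inv_le_gen (Φ : Frobenius H q) (hq : q ≠ 0) (Y : 𝒱.Obj) : Φ.invariants Y ≤ Φ.gen Y := by
  intro t ht
  rw [mem_inv] at ht
  rw [mem_gen Φ hq]
  show H.Deg (2 * ((1 : ℕ) : ℤ)) t ∧ ∃ N : ℕ, ((Φ.op Y (q ^ 1)) ^ N) t = 0
  have e2 : (2 * ((1 : ℕ) : ℤ)) = 2 := by norm_num
  rw [e2, pow_one q]
  exact ⟨ht.1, 1, ht.2⟩

lemma div_le_inv (Φ : Frobenius H q) (Y : 𝒱.Obj) : divisorSpan H Y ≤ Φ.invariants Y := by
  rw [divisorSpan, Submodule.span_le]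
  rintro _ ⟨z, hz, rfl⟩
  refine ⟨?_, ?_⟩
  · have h1 := H.cl_mem hz
    rwa [mul_one] at h1
  · have h1 := Φ.cycle (r := 1) (z := z) (by exact_mod_cast hz)
    rw [pow_one] at h1
    exact h1

omit hC hH in
lemma isAlg_iff (Y : 𝒱.Obj) (t : H.A Y) : IsAlg H 1 t ↔ t ∈ divisorSpan H Y := by
  rw [IsAlg, divisorSpan]
  simp only [Nat.cast_one]

/-- The multiplicity of `q`. -/
theorem mult_iff [hfin : ∀ X : 𝒱.Obj, Module.Finite K (H.A X)] (Φ : Frobenius H q) (hq : q ≠ 0)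
    (n : ℕ) (hP : ∀ (S : 𝒱.Obj) (N : ℕ), S.dim = n → HasPower C n N S) :
    (∀ Y : 𝒱.Obj, Y.dim = n → Φ.Spanned Y ∧ divRank H Y = Φ.mult Y) ↔
      ∃ D, ∀ Y : 𝒱.Obj, Y.dim = n → Φ.mult Y ≤ divRank H Y + D := by
  constructor
  · intro h
    exact ⟨0, fun Y hY => by rw [(h Y hY).2, add_zero]⟩
  · rintro ⟨D, hD⟩
    have h1 : DefectAtMost (genFam Φ hq) n 1 D := by
      intro X t hX ht
      obtain ⟨c, hc, hct⟩ := exists_combo (divisorSpan H X) (Φ.gen X)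
        ((div_le_inv Φ X).trans (inv_le_gen Φ hq X)) D
        (hD X hX) t
        (fun i => (mem_gen Φ hq X (t i)).2 (ht i))
      exact ⟨c, hc, (isAlg_iff X _).2 hct⟩
    have h0 : TateConj (genFam Φ hq) n 1 ↔ ∃ D, DefectAtMost (genFam Φ hq) n 1 D :=
      (main (genFam Φ hq) hP).out 0 1
    have h2 : TateConj (genFam Φ hq) n 1 := h0.2 ⟨D, h1⟩
    intro Y hY
    have h3 : Φ.gen Y ≤ divisorSpan H Y := fun t ht =>
      (isAlg_iff Y t).1 (h2 Y t hY ((mem_gen Φ hq Y t).1 ht))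
    have h4 : divisorSpan H Y = Φ.gen Y :=
      le_antisymm ((div_le_inv Φ Y).trans (inv_le_gen Φ hq Y)) h3
    refine ⟨le_antisymm (div_le_inv Φ Y) ((inv_le_gen Φ hq Y).trans h3), ?_⟩
    rw [divRank, h4, Frobenius.mult]

/-- The invariant classes. -/
theorem inv_iff [hfin : ∀ X : 𝒱.Obj, Module.Finite K (H.A X)] (Φ : Frobenius H q) (hq : q ≠ 0)
    (n : ℕ) (hP : ∀ (S : 𝒱.Obj) (N : ℕ), S.dim = n → HasPower C n N S) :
    (∀ Y : 𝒱.Obj, Y.dim = n → Φ.Spanned Y) ↔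
      ∃ D, ∀ Y : 𝒱.Obj, Y.dim = n → Φ.invRank Y ≤ divRank H Y + D := by
  have e2 : (2 * ((1 : ℕ) : ℤ)) = 2 := by norm_num
  have hmem : ∀ (Y : 𝒱.Obj) (t : H.A Y), t ∈ Φ.invariants Y ↔ (eigFam Φ hq).Mem Y 1 t := by
    intro Y t
    rw [mem_inv]
    show _ ↔ H.Deg (2 * ((1 : ℕ) : ℤ)) t ∧ ((Φ.op Y (q ^ 1)) ^ 1) t = 0
    rw [e2, pow_one q]
  constructor
  · intro h
    refine ⟨0, fun Y hY => ?_⟩
    have h0 : divisorSpan H Y = Φ.invariants Y := h Y hY
    rw [Frobenius.invRank, divRank, h0, add_zero]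
  · rintro ⟨D, hD⟩
    have h1 : DefectAtMost (eigFam Φ hq) n 1 D := by
      intro X t hX ht
      obtain ⟨c, hc, hct⟩ := exists_combo (divisorSpan H X) (Φ.invariants X) (div_le_inv Φ X) D
        (hD X hX) t (fun i => (hmem X (t i)).2 (ht i))
      exact ⟨c, hc, (isAlg_iff X _).2 hct⟩
    have h0 : TateConj (eigFam Φ hq) n 1 ↔ ∃ D, DefectAtMost (eigFam Φ hq) n 1 D :=
      (main (eigFam Φ hq) hP).out 0 1
    have h2 : TateConj (eigFam Φ hq) n 1 := h0.2 ⟨D, h1⟩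
    intro Y hY
    exact le_antisymm (div_le_inv Φ Y) fun t ht =>
      (isAlg_iff Y t).1 (h2 Y t hY ((hmem Y t).1 ht))

end Pool.Agent.V202T
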