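import Pool.Agent.V202T.SqrtPoly
import Pool.Agent.V1157.MJ.Main

/-!
# Self-dual Chow-Kunneth decompositions are conjugate by orthogonal correspondences
-/

open CategoryTheory AlgebraicGeometry

universe u v w

namespace Pool.Agent.V202T

open Pool.Agent.H914 Pool.Agent.H914.VarClass Pool.Agent.H914.VarClass.Obj Pool.Agent.W492.BB
  Pool.Agent.W550.Corr Pool.Agent.TH133 Pool.Agent.V1157.MJ

variable {k : Type u} [Field k] {𝒱 : VarClass k} {C : TheoryData.{u, v, 0} 𝒱 ℚ}
  [hC : IsChowProj C] {K : Type w} [Field K] {H : WeilTheoryData.{u, v, w} C K}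
  [hH : IsWeilProj H] {X : 𝒱.Obj}

/-- The family `e, π i, s` composed: `Γ ↦ s ∘ Γ ∘ t`. -/
noncomputable def conjCK (C : TheoryData.{u, v, 0} 𝒱 ℚ) {X : 𝒱.Obj} (s t : C.A (X.prod X))
    (π : ℕ → C.A (X.prod X)) : ℕ → C.A (X.prod X) :=
  fun i => C.comp (C.comp t (π i)) s

/-- `s` and `t` are inverse self-correspondences of degree zero of `X`, and `s` acts as the identity
on the cohomology. -/
structure UnipotentPair (H : WeilTheoryData.{u, v, w} C K) (X : 𝒱.Obj)
    (s t : C.A (X.prod X)) : Prop where
  deg_left : C.Deg X.dim s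
  deg_right : C.Deg X.dim t
  comp_left : C.comp s t = dg C X
  comp_right : C.comp t s = dg C X
  act : ∀ a : H.A X, H.act (H.cl s) a = a

lemma cl_eq_zero_act {a : Cor C X} (h : H.cl (X := X.prod X) a = 0) : actH C X H a = 0 := by
  ext x
  rw [actH_apply, h, TheoryData.act_apply, zero_mul, map_zero]
  rfl

lemma act_one_add (ν x : Cor C X) (h : actH C X H ν = 0) (a : H.A X) :
    actH C X H (1 + ν * x) a = a := by
  rw [map_add, map_mul, h, zero_mul, add_zero, map_one]
  rfl

/-- The conjugate of a Chow-Kunneth decomposition. -/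
lemma isCK_conj {π : ℕ → C.A (X.prod X)} (hπ : IsCK H X π) {s t : C.A (X.prod X)}
    (h : UnipotentPair H X s t) : IsCK H X (conjCK C s t π) := by
  let P : ℕ → Cor C X := π
  have hP : IsCK H X P := hπ
  let S : Cor C X := s
  let T : Cor C X := t
  have hST : S * T = 1 := h.comp_right
  have hTS : T * S = 1 := h.comp_left
  have hS : S ∈ cor0 C X := h.deg_left
  have hT : T ∈ cor0 C X := h.deg_right
  have hsa : actH C X H S = 1 := by
    ext a
    exact h.act a
  have hta : actH C X H T = 1 := by
    have h1 := congrArg (actH C X H) hST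
    rwa [map_mul, hsa, one_mul, map_one] at h1
  have hm : ∀ i j, (S * (P i * T)) * (S * (P j * T)) = S * ((P i * P j) * T) := by
    intro i j
    calc _ = S * (P i * ((T * S) * (P j * T))) := by simp only [mul_assoc]
      _ = _ := by rw [hTS, one_mul]; simp only [mul_assoc]
  have hact : ∀ i, actH C X H (S * (P i * T)) = actH C X H (P i) := by
    intro i
    rw [map_mul, map_mul, hsa, hta, one_mul, mul_one]
  exact
  { deg := fun i => (cor0 C X).mul_mem hS ((cor0 C X).mul_mem (hP.deg i) hT)
    out := fun i hi => by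
      have h1 : P i = 0 := hP.out i hi
      have h2 : S * (P i * T) = 0 := by rw [h1, zero_mul, mul_zero]
      exact h2
    idem := fun i => by
      have h1 := hm i i
      rw [hP.mul_eq, if_pos rfl] at h1
      exact h1
    orth := fun i j hij => by
      have h1 := hm j i
      rw [hP.mul_eq, if_neg (Ne.symm hij), zero_mul, mul_zero] at h1
      exact h1
    sum := by
      have h1 : ∑ i ∈ Finset.range (2 * X.dim + 1), S * (P i * T) = 1 := by
        rw [← Finset.mul_sum, ← Finset.sum_mul, hP.sum_eq, one_mul, hST]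
      exact h1
    act_self := fun i a ha => by
      have h1 := LinearMap.congr_fun (hact i) a
      exact h1.trans (hP.act_self i a ha)
    act_ne := fun i m a hm' ha => by
      have h1 := LinearMap.congr_fun (hact i) a
      exact h1.trans (hP.act_ne i m a hm' ha) }

/-- The transpose as a linear anti-automorphism. -/
lemma tpR_sm (q : ℚ) (a : Cor C X) : tpR C X (q • a) = q • tpR C X a := tpR_smul q a

lemma nil_pow {n : ℕ} (hn : NilpotentOfIndex H X n) {ν : Cor C X} (h0 : ν ∈ cor0 C X)
    (h1 : H.cl (X := X.prod X) ν = 0) : ν ^ n = 0 := by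
  have e1 : cL (C := C) (List.replicate n (ν : C.A (X.prod X))) = ν ^ n := cL_replicate _ n
  rw [← e1]
  refine hn _ (List.length_replicate ..) ?_
  intro γ hγ
  rw [List.eq_of_mem_replicate hγ]
  exact ⟨h0, h1⟩

/-- An inverse square root of the symmetric unipotent correspondence `c`. -/
lemma exists_root {n : ℕ} (hn : NilpotentOfIndex H X n) {c : Cor C X} (h0 : c ∈ cor0 C X)
    (hc : tpR C X c = c) (hact : ∀ a, actH C X H c a = a) :
    ∃ e ∈ cor0 C X, tpR C X e = e ∧ e * e * c = 1 ∧ (∀ a, Commute a c → Commute a e) ∧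
      ∀ a, actH C X H e a = a := by
  have h1 : H.cl (X := X.prod X) (c - 1 : Cor C X) = 0 := by
    apply hom_zero_of_act H
    intro a
    have h2 : actH C X H (c - 1) a = 0 := by
      rw [map_sub, map_one, LinearMap.sub_apply, hact]
      exact sub_self _
    exact h2
  obtain ⟨e, he, hte, hec, hcomm, x, hx, hex⟩ := exists_inv_sqrt (tpR C X) tpR_mul tpR_one tpR_sm
    (cor0 C X) hc h0 (nil_pow hn ((cor0 C X).sub_mem h0 (cor0 C X).one_mem) h1)
  refine ⟨e, he, hte, hec, hcomm, fun a => ?_⟩
  rw [hex]
  exact act_one_add _ _ (cl_eq_zero_act h1) a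

/-- **Two self-dual Chow-Kunneth decompositions are conjugate by an orthogonal correspondence.** -/
theorem orthogonal {n : ℕ} (hn : NilpotentOfIndex H X n) {π π' : ℕ → C.A (X.prod X)}
    (hπ : IsCK H X π) (hπ' : IsCK H X π') (hs : IsSelfDual C π) (hs' : IsSelfDual C π') :
    ∃ s : C.A (X.prod X), UnipotentPair H X s (tp C s) ∧ π' = conjCK C s (tp C s) π := by
  obtain ⟨s, t, hsd, htd, hst, hts, hsact, hconj⟩ := unique_of_nilpotent X hn π π' hπ hπ'
  let P : ℕ → Cor C X := π
  let P' : ℕ → Cor C X := π'
  have hP : IsCK H X P := hπ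
  have hP' : IsCK H X P' := hπ'
  let S : Cor C X := s
  let T : Cor C X := t
  have hST : S * T = 1 := hts
  have hTS : T * S = 1 := hst
  have hSm : S ∈ cor0 C X := hsd
  have hTm : T ∈ cor0 C X := htd
  have hS1 : actH C X H S = 1 := by
    ext a
    exact hsact a
  have hc : ∀ i, P' i = S * (P i * T) := hconj
  -- transposition
  have htp : ∀ i ≤ 2 * X.dim, tpR C X (P i) = P (2 * X.dim - i) := hs
  have htp' : ∀ i ≤ 2 * X.dim, tpR C X (P' i) = P' (2 * X.dim - i) := hs'
  set U : Cor C X := tpR C X S with hU
  set V : Cor C X := tpR C X T with hV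
  have hUV : V * U = 1 := by rw [hU, hV, ← tpR_mul, hST, tpR_one]
  have hVU : U * V = 1 := by rw [hU, hV, ← tpR_mul, hTS, tpR_one]
  have hUm : U ∈ cor0 C X := tpR_mem hSm
  -- `U S` commutes with `P j`
  have hcom : ∀ j, Commute (P j) (U * S) := by
    intro j
    by_cases hj : j ≤ 2 * X.dim
    · have h1 := htp' (2 * X.dim - j) (by omega)
      have e1 : 2 * X.dim - (2 * X.dim - j) = j := by omega
      rw [hc, tpR_mul, tpR_mul, htp _ (by omega), e1, hc] at h1
      -- h1 : V * P j * U = S * (P j * T)
      have h2 : P j * (U * S) = U * S * P j := by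
        calc P j * (U * S) = (U * V) * (P j * (U * S)) := by rw [hVU, one_mul]
          _ = U * (V * P j * U) * S := by simp only [mul_assoc]
          _ = U * (S * (P j * T)) * S := by rw [h1]
          _ = U * S * P j * (T * S) := by simp only [mul_assoc]
          _ = U * S * P j := by rw [hTS, mul_one]
      exact h2
    · have h1 : P j = 0 := hP.out j (by omega)
      rw [h1]
      exact Commute.zero_left _
  have hsym : tpR C X (U * S) = U * S := by rw [tpR_mul, hU, tpR_tpR]
  have hUact : actH C X H U = 1 := by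
    have h0 : H.cl (X := X.prod X) (S - 1 : Cor C X) = 0 := by
      apply hom_zero_of_act H
      intro a
      have h2 : actH C X H (S - 1) a = 0 := by
        rw [map_sub, map_one, hS1, sub_self]
        rfl
      exact h2
    have h1 : H.cl (X := X.prod X) (tpR C X (S - 1) : Cor C X) = 0 := by
      rw [tpR_apply, cl_tp, h0]
      exact map_zero _
    have h2 := cl_eq_zero_act h1
    rw [map_sub, tpR_one, map_sub, map_one, sub_eq_zero] at h2
    exact h2
  have hcact : ∀ a, actH C X H (U * S) a = a := by
    intro a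
    rw [map_mul, hUact, hS1, one_mul]
    rfl
  obtain ⟨e, he, hte, hec, hcomm, hea⟩ := exists_root hn ((cor0 C X).mul_mem hUm hSm) hsym hcact
  have hec' : Commute e (U * S) := (hcomm (U * S) (Commute.refl _)).symm
  -- `W = S e`
  have h1 : (e * U) * (S * e) = 1 := by
    calc (e * U) * (S * e) = e * (U * S * e) := by simp only [mul_assoc]
      _ = e * (e * (U * S)) := by rw [hec'.eq]
      _ = 1 := by rw [← mul_assoc, hec]
  have h2 : S * e * (e * (U * S) * T) = 1 := by
    calc S * e * (e * (U * S) * T) = S * (e * e * (U * S)) * T := by simp only [mul_assoc]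
      _ = 1 := by rw [hec, mul_one, hST]
  have h3 : e * U = e * (U * S) * T := by
    calc e * U = e * U * (S * T) := by rw [hST, mul_one]
      _ = _ := by simp only [mul_assoc]
  have h4 : (S * e) * (e * U) = 1 := by rw [h3]; exact h2
  have htW : tpR C X (S * e) = e * U := by rw [tpR_mul, hte]
  have htW' : (tp C (S * e : Cor C X) : Cor C X) = e * U := htW
  refine ⟨(S * e : Cor C X), ⟨(cor0 C X).mul_mem hSm he, ?_, ?_, ?_, ?_⟩, ?_⟩
  · rw [htW']
    exact (cor0 C X).mul_mem he hUm
  · rw [htW']
    exact h1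
  · rw [htW']
    exact h4
  · intro a
    have h5 : actH C X H (S * e) a = a := by
      rw [map_mul, hS1, one_mul]
      exact hea a
    exact h5
  · funext i
    rw [htW']
    have h6 : P' i = (S * e) * (P i * (e * U)) := by
      have h7 : Commute (P i) e := hcomm _ (hcom i)
      calc P' i = S * (P i * T) := hc i
        _ = S * (P i * ((e * e * (U * S)) * T)) := by rw [hec, one_mul]
        _ = S * ((P i * e) * (e * U * (S * T))) := by simp only [mul_assoc]
        _ = S * ((e * P i) * (e * U)) := by rw [hST, mul_one, h7.eq]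
        _ = _ := by simp only [mul_assoc]
    exact h6

/-- **Every Chow-Kunneth decomposition is conjugate to a self-dual one by a symmetric
correspondence.** -/
theorem to_selfDual {n : ℕ} (hn : NilpotentOfIndex H X n) {π : ℕ → C.A (X.prod X)}
    (hπ : IsCK H X π) :
    ∃ r e : C.A (X.prod X), tp C r = r ∧ UnipotentPair H X r e ∧ IsSelfDual C (conjCK C r e π) := by
  let P : ℕ → Cor C X := π
  have hP : IsCK H X P := hπ
  let Q : ℕ → Cor C X := dualCK C π
  have hQ : IsCK H X Q := hπ.dual
  have hPQ : ∀ i ≤ 2 * X.dim, tpR C X (P i) = Q (2 * X.dim - i) := by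
    intro i hi
    have h1 : Q (2 * X.dim - i) = tp C (π (2 * X.dim - (2 * X.dim - i))) := if_pos (by omega)
    rw [show 2 * X.dim - (2 * X.dim - i) = i by omega] at h1
    exact h1.symm
  have hQP : ∀ i ≤ 2 * X.dim, tpR C X (Q i) = P (2 * X.dim - i) := by
    intro i hi
    have h1 := hPQ (2 * X.dim - i) (by omega)
    rw [show 2 * X.dim - (2 * X.dim - i) = i by omega] at h1
    rw [← h1, tpR_tpR]
  set S : Cor C X := ∑ i ∈ Finset.range (2 * X.dim + 1), Q i * P i with hSdef
  have hSm : S ∈ cor0 C X := (cor0 C X).sum_mem fun i _ => (cor0 C X).mul_mem (hQ.deg i) (hP.deg i)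
  have hSact : ∀ a : H.A X, actH C X H S a = a := by
    have h1 : actH C X H S = LinearMap.id := by
      apply ext_gr H
      intro m a ha
      rw [LinearMap.id_apply, hSdef, map_sum, LinearMap.sum_apply]
      have e1 : ∀ i, actH C X H (Q i * P i) a = actH C X H (P i) a := by
        intro i
        rw [map_mul, Module.End.mul_apply, hP.actH_eq' i m ha]
        split_ifs with hm
        · rw [hQ.actH_eq' i m ha, if_pos hm]
        · rw [map_zero]
      rw [Finset.sum_congr rfl fun i _ => e1 i, ← LinearMap.sum_apply, ← map_sum, hP.sum_eq,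
        map_one]
      rfl
    intro a
    rw [h1]
    rfl
  have hSP : ∀ i, i ≤ 2 * X.dim → S * P i = Q i * S := by
    intro i hi
    have h1 : S * P i = Q i * P i := by
      rw [hSdef, Finset.sum_mul, Finset.sum_eq_single i]
      · rw [mul_assoc, hP.mul_eq, if_pos rfl]
      · intro j _ hj
        rw [mul_assoc, hP.mul_eq, if_neg hj, mul_zero]
      · intro h
        exact absurd (Finset.mem_range.2 (by omega)) h
    have h2 : Q i * S = Q i * P i := by
      rw [hSdef, Finset.mul_sum, Finset.sum_eq_single i]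
      · rw [← mul_assoc, hQ.mul_eq, if_pos rfl]
      · intro j _ hj
        rw [← mul_assoc, hQ.mul_eq, if_neg (Ne.symm hj), zero_mul]
      · intro h
        exact absurd (Finset.mem_range.2 (by omega)) h
    rw [h1, h2]
  have hsym : tpR C X S = S := by
    rw [hSdef, map_sum]
    have h1 : ∀ i ∈ Finset.range (2 * X.dim + 1), tpR C X (Q i * P i) =
        (fun j => Q j * P j) (2 * X.dim + 1 - 1 - i) := by
      intro i hi
      rw [Finset.mem_range] at hi
      rw [tpR_mul, hPQ i (by omega), hQP i (by omega)]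
      rfl
    rw [Finset.sum_congr rfl h1, Finset.sum_range_reflect (fun j => Q j * P j)]
  obtain ⟨e, he, hte, hec, hcomm, hea⟩ := exists_root hn hSm hsym hSact
  have heS : S * e = e * S := hcomm S (Commute.refl _)
  have h1 : (e * S) * e = 1 := by rw [mul_assoc, heS, ← mul_assoc, hec]
  have h2 : e * (e * S) = 1 := by rw [← mul_assoc, hec]
  have hrt : tpR C X (e * S) = e * S := by rw [tpR_mul, hte, hsym, heS]
  have hra : ∀ a, actH C X H (e * S) a = a := by
    intro a
    rw [map_mul, Module.End.mul_apply, hSact, hea]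
  refine ⟨(e * S : Cor C X), e, hrt, ⟨(cor0 C X).mul_mem he hSm, he, h2, h1, hra⟩, ?_⟩
  intro i hi
  have h3 : tpR C X ((e * S) * (P i * e)) = (e * S) * (P (2 * X.dim - i) * e) := by
    rw [tpR_mul, tpR_mul, hte, hrt, hPQ i hi]
    have h4 := hSP (2 * X.dim - i) (by omega)
    calc e * Q (2 * X.dim - i) * (e * S) = e * (Q (2 * X.dim - i) * S) * e := by
          rw [← heS]; simp only [mul_assoc]
      _ = _ := by rw [← h4]; simp only [mul_assoc]
  exact h3

end Pool.Agent.V202T
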