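import Pool.Agent.V202T.SelfDualConj

/-!
# Equivariant self-dual Chow-Kunneth decompositions
-/

open CategoryTheory AlgebraicGeometry

universe u v w

namespace Pool.Agent.V202T

open Pool.Agent.H914 Pool.Agent.H914.VarClass Pool.Agent.H914.VarClass.Obj Pool.Agent.W492.BB
  Pool.Agent.W550.Corr Pool.Agent.TH133 Pool.Agent.V1157.MJ

variable {k : Type u} [Field k] {𝒱 : VarClass k} {C : TheoryData.{u, v, 0} 𝒱 ℚ}
  [hC : IsChowProj C] {K : Type w} [Field K] {H : WeilTheoryData.{u, v, w} C K}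
  [hH : IsWeilProj H] {X : 𝒱.Obj}

/-- An inverse square root in a subalgebra. -/
lemma exists_root_in {n : ℕ} (hn : NilpotentOfIndex H X n) (R : Subalgebra ℚ (Cor C X))
    (hR : ∀ a ∈ R, a ∈ cor0 C X) {c : Cor C X} (h0 : c ∈ R)
    (hc : tpR C X c = c) (hact : ∀ a, actH C X H c a = a) :
    ∃ e ∈ R, tpR C X e = e ∧ e * e * c = 1 ∧ (∀ a, Commute a c → Commute a e) ∧
      ∀ a, actH C X H e a = a := by
  have h1 : H.cl (X := X.prod X) (c - 1 : Cor C X) = 0 := by
    apply hom_zero_of_act H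
    intro a
    have h2 : actH C X H (c - 1) a = 0 := by
      rw [map_sub, map_one, LinearMap.sub_apply, hact]
      exact sub_self _
    exact h2
  obtain ⟨e, he, hte, hec, hcomm, x, hx, hex⟩ := exists_inv_sqrt (tpR C X) tpR_mul tpR_one tpR_sm
    R hc h0 (nil_pow hn ((cor0 C X).sub_mem (hR c h0) (cor0 C X).one_mem) h1)
  refine ⟨e, he, hte, hec, hcomm, fun a => ?_⟩
  rw [hex]
  exact act_one_add _ _ (cl_eq_zero_act h1) a

theorem to_selfDual_in {n : ℕ} (hn : NilpotentOfIndex H X n) {π : ℕ → C.A (X.prod X)}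
    (hπ : IsCK H X π) (R : Subalgebra ℚ (Cor C X)) (hR : ∀ a ∈ R, a ∈ cor0 C X)
    (hRt : ∀ a ∈ R, tpR C X a ∈ R) (hπR : ∀ i, (π i : Cor C X) ∈ R) :
    ∃ r e : Cor C X, r ∈ R ∧ e ∈ R ∧ UnipotentPair H X r e ∧ IsSelfDual C (conjCK C r e π) := by
  let P : ℕ → Cor C X := π
  have hP : IsCK H X P := hπ
  let Q : ℕ → Cor C X := dualCK C π
  have hQ : IsCK H X Q := hπ.dual
  have hPQ : ∀ i ≤ 2 * X.dim, tpR C X (P i) = Q (2 * X.dim - i) := by
    intro i hi
    have h1 : Q (2 * X.dim - i) = tp C (π (2 * X.dim - (2 * X.dim - i))) := if_pos (by omega)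
    rw [show 2 * X.dim - (2 * X.dim - i) = i by omega] at h1
    exact h1.symm
  have hQP : ∀ i ≤ 2 * X.dim, tpR C X (Q i) = P (2 * X.dim - i) := by
    intro i hi
    have h1 := hPQ (2 * X.dim - i) (by omega)
    rw [show 2 * X.dim - (2 * X.dim - i) = i by omega] at h1
    rw [← h1, tpR_tpR]
  have hPR : ∀ i, P i ∈ R := hπR
  have hQR : ∀ i ≤ 2 * X.dim, Q i ∈ R := by
    intro i hi
    have h1 := hRt _ (hPR (2 * X.dim - i))
    rw [hPQ _ (by omega), show 2 * X.dim - (2 * X.dim - i) = i by omega] at h1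
    exact h1
  set S : Cor C X := ∑ i ∈ Finset.range (2 * X.dim + 1), Q i * P i with hSdef
  have hSm : S ∈ R := R.sum_mem fun i hi => by
    rw [Finset.mem_range] at hi
    exact R.mul_mem (hQR i (by omega)) (hPR i)
  have hSact : ∀ a : H.A X, actH C X H S a = a := by
    have h1 : actH C X H S = LinearMap.id := by
      apply ext_gr H
      intro m a ha
      rw [LinearMap.id_apply, hSdef, map_sum, LinearMap.sum_apply]
      have e1 : ∀ i, actH C X H (Q i * P i) a = actH C X H (P i) a := by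
        intro i
        rw [map_mul, Module.End.mul_apply, hP.actH_eq' i m ha]
        split_ifs with hm
        · rw [hQ.actH_eq' i m ha, if_pos hm]
        · rw [map_zero]
      rw [Finset.sum_congr rfl fun i _ => e1 i, ← LinearMap.sum_apply, ← map_sum, hP.sum_eq,
        map_one]
      rfl
    intro a
    rw [h1]
    rfl
  have hSP : ∀ i, i ≤ 2 * X.dim → S * P i = Q i * S := by
    intro i hi
    have h1 : S * P i = Q i * P i := by
      rw [hSdef, Finset.sum_mul, Finset.sum_eq_single i]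
      · rw [mul_assoc, hP.mul_eq, if_pos rfl]
      · intro j _ hj
        rw [mul_assoc, hP.mul_eq, if_neg hj, mul_zero]
      · intro h
        exact absurd (Finset.mem_range.2 (by omega)) h
    have h2 : Q i * S = Q i * P i := by
      rw [hSdef, Finset.mul_sum, Finset.sum_eq_single i]
      · rw [← mul_assoc, hQ.mul_eq, if_pos rfl]
      · intro j _ hj
        rw [← mul_assoc, hQ.mul_eq, if_neg (Ne.symm hj), zero_mul]
      · intro h
        exact absurd (Finset.mem_range.2 (by omega)) h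
    rw [h1, h2]
  have hsym : tpR C X S = S := by
    rw [hSdef, map_sum]
    have h1 : ∀ i ∈ Finset.range (2 * X.dim + 1), tpR C X (Q i * P i) =
        (fun j => Q j * P j) (2 * X.dim + 1 - 1 - i) := by
      intro i hi
      rw [Finset.mem_range] at hi
      rw [tpR_mul, hPQ i (by omega), hQP i (by omega)]
      rfl
    rw [Finset.sum_congr rfl h1, Finset.sum_range_reflect (fun j => Q j * P j)]
  obtain ⟨e, he, hte, hec, hcomm, hea⟩ := exists_root_in hn R hR hSm hsym hSact
  have heS : S * e = e * S := hcomm S (Commute.refl _)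
  have h1 : (e * S) * e = 1 := by rw [mul_assoc, heS, ← mul_assoc, hec]
  have h2 : e * (e * S) = 1 := by rw [← mul_assoc, hec]
  have hrt : tpR C X (e * S) = e * S := by rw [tpR_mul, hte, hsym, heS]
  have hra : ∀ a, actH C X H (e * S) a = a := by
    intro a
    rw [map_mul, Module.End.mul_apply, hSact, hea]
  refine ⟨(e * S : Cor C X), e, R.mul_mem he hSm, he,
    ⟨(cor0 C X).mul_mem (hR e he) (hR S hSm), hR e he, h2, h1, hra⟩, ?_⟩
  intro i hi
  have h3 : tpR C X ((e * S) * (P i * e)) = (e * S) * (P (2 * X.dim - i) * e) := by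
    rw [tpR_mul, tpR_mul, hte, hrt, hPQ i hi]
    have h4 := hSP (2 * X.dim - i) (by omega)
    calc e * Q (2 * X.dim - i) * (e * S) = e * (Q (2 * X.dim - i) * S) * e := by
          rw [← heS]; simp only [mul_assoc]
      _ = _ := by rw [← h4]; simp only [mul_assoc]
  exact h3

/-- Correspondences of degree zero commute with the Kunneth projectors on the cohomology. -/
lemma actH_comm {π : ℕ → C.A (X.prod X)} (hπ : IsCK H X π) (i : ℕ) {c : Cor C X}
    (hc : c ∈ cor0 C X) : actH C X H c * actH C X H (π i : Cor C X) =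
      actH C X H (π i : Cor C X) * actH C X H c := by
  let P : ℕ → Cor C X := π
  have hP : IsCK H X P := hπ
  have h1 : actH C X H c * actH C X H (P i) = actH C X H (P i) * actH C X H c := by
    apply ext_gr H
    intro m a ha
    rw [Module.End.mul_apply, Module.End.mul_apply, hP.actH_eq' i m ha,
      hP.actH_eq' i m (actH_mem0 hc ha)]
    split_ifs
    · rfl
    · rw [map_zero]
  exact h1

/-- **The equivariant lifting.** -/
theorem equivariant {n : ℕ} (hn : NilpotentOfIndex H X n) {π : ℕ → C.A (X.prod X)}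
    (hπ : IsCK H X π) {G : Type*} [Group G] [Fintype G] (ρ : G →* Cor C X)
    (hρ : ∀ g, ρ g ∈ cor0 C X) (hτ : ∀ g, tpR C X (ρ g) = ρ g⁻¹) :
    ∃ π' : ℕ → C.A (X.prod X), IsCK H X π' ∧ IsSelfDual C π' ∧
      ∀ g i, C.comp (π' i) (ρ g : C.A (X.prod X)) = C.comp (ρ g : C.A (X.prod X)) (π' i) := by
  classical
  let P : ℕ → Cor C X := π
  have hP : IsCK H X P := hπ
  let Z : Subalgebra ℚ (Cor C X) := Subalgebra.centralizer ℚ (Set.range ρ)
  let R : Subalgebra ℚ (Cor C X) := cor0 C X ⊓ Z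
  have hRc : ∀ a ∈ R, a ∈ cor0 C X := fun a ha => ha.1
  have hRz : ∀ a ∈ R, ∀ g, ρ g * a = a * ρ g := fun a ha g =>
    (Subalgebra.mem_centralizer_iff ℚ).1 ha.2 _ ⟨g, rfl⟩
  have hRi : ∀ a ∈ cor0 C X, (∀ g, ρ g * a = a * ρ g) → a ∈ R := fun a h1 h2 =>
    ⟨h1, (Subalgebra.mem_centralizer_iff ℚ).2 (by rintro _ ⟨g, rfl⟩; exact h2 g)⟩
  have hRt : ∀ a ∈ R, tpR C X a ∈ R := by
    intro a ha
    refine hRi _ (tpR_mem (hRc a ha)) fun g => ?_
    have h1 := congrArg (tpR C X) (hRz a ha g⁻¹)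
    rw [tpR_mul, tpR_mul, hτ, inv_inv] at h1
    exact h1.symm
  let f : R →+* Module.End K (H.A X) := (actH C X H).comp R.val.toRingHom
  have hf : ∀ x : R, f x = actH C X H (x : Cor C X) := fun _ => rfl
  have hker : ∀ x ∈ RingHom.ker f, IsNilpotent x := by
    intro x hx
    have h1 : actH C X H (x : Cor C X) = 0 := hx
    refine ⟨n, Subtype.ext ?_⟩
    have h2 : H.cl (X := X.prod X) (x : Cor C X) = 0 := by
      apply hom_zero_of_act H
      intro a
      exact LinearMap.congr_fun h1 a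
    exact nil_pow hn (hRc _ x.2) h2
  let e : Fin (2 * X.dim + 1) → Module.End K (H.A X) := fun i => actH C X H (P i)
  have he : CompleteOrthogonalIdempotents e := by
    refine ⟨⟨fun i => ?_, fun i j hij => ?_⟩, ?_⟩
    · show actH C X H (P i) * actH C X H (P i) = actH C X H (P i)
      rw [← map_mul, hP.mul_eq, if_pos rfl]
    · show actH C X H (P i) * actH C X H (P j) = 0
      rw [← map_mul, hP.mul_eq, if_neg (fun h => hij (Fin.ext h)), map_zero]
    · show ∑ i : Fin (2 * X.dim + 1), actH C X H (P i) = 1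
      rw [← map_sum, Fin.sum_univ_eq_sum_range (fun i => P i), hP.sum_eq, map_one]
  have hN : (Fintype.card G : ℚ) ≠ 0 := Nat.cast_ne_zero.2 Fintype.card_ne_zero
  have he' : ∀ i, e i ∈ f.range := by
    intro i
    let y : Cor C X := ∑ g : G, ρ g * P i * ρ g⁻¹
    have hy0 : y ∈ cor0 C X := (cor0 C X).sum_mem fun g _ =>
      (cor0 C X).mul_mem ((cor0 C X).mul_mem (hρ g) (hP.deg i)) (hρ _)
    have hyz : ∀ h, ρ h * y = y * ρ h := by
      intro h
      show ρ h * ∑ g : G, ρ g * P i * ρ g⁻¹ = (∑ g : G, ρ g * P i * ρ g⁻¹) * ρ h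
      rw [Finset.mul_sum, Finset.sum_mul]
      refine Fintype.sum_equiv (Equiv.mulLeft h) _ _ fun g => ?_
      rw [Equiv.coe_mulLeft, mul_inv_rev, map_mul, map_mul]
      have h2 : ρ h⁻¹ * ρ h = 1 := by rw [← map_mul, inv_mul_cancel, map_one]
      calc ρ h * (ρ g * P i * ρ g⁻¹) = ρ h * ρ g * P i * (ρ g⁻¹ * 1) := by
            rw [mul_one]; simp only [mul_assoc]
        _ = _ := by rw [← h2]; simp only [mul_assoc]
    have hya : actH C X H y = (Fintype.card G : Module.End K (H.A X)) * e i := by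
      show actH C X H (∑ g : G, ρ g * P i * ρ g⁻¹) = _
      have h1 : ∀ g : G, actH C X H (ρ g * P i * ρ g⁻¹) = e i := by
        intro g
        have h5 : actH C X H (ρ g) * actH C X H (P i) = actH C X H (P i) * actH C X H (ρ g) :=
          actH_comm hπ i (hρ g)
        have h6 : actH C X H (ρ g) * actH C X H (ρ g⁻¹) = 1 := by
          rw [← map_mul (actH C X H), ← map_mul ρ, mul_inv_cancel, map_one, map_one]
        rw [map_mul, map_mul, h5, mul_assoc, h6, mul_one]
      rw [map_sum, Finset.sum_congr rfl fun g _ => h1 g, Finset.sum_const, Finset.card_univ,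
        nsmul_eq_mul]
    let x : Cor C X := algebraMap ℚ (Cor C X) (Fintype.card G : ℚ)⁻¹ * y
    have hx : x ∈ R := R.mul_mem (R.algebraMap_mem _) (hRi y hy0 hyz)
    refine ⟨⟨x, hx⟩, ?_⟩
    show actH C X H (algebraMap ℚ (Cor C X) (Fintype.card G : ℚ)⁻¹ * y) = e i
    have h3 : actH C X H (algebraMap ℚ (Cor C X) (Fintype.card G : ℚ)) =
        (Fintype.card G : Module.End K (H.A X)) := by
      rw [map_natCast, map_natCast]
    have h4 : actH C X H (algebraMap ℚ (Cor C X) (Fintype.card G : ℚ)⁻¹) *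
        actH C X H (algebraMap ℚ (Cor C X) (Fintype.card G : ℚ)) = 1 := by
      rw [← map_mul (actH C X H), ← map_mul (algebraMap ℚ (Cor C X)), inv_mul_cancel₀ hN, map_one,
        map_one]
    rw [map_mul, hya, ← h3, ← mul_assoc, h4, one_mul]
  obtain ⟨e', h1, h2⟩ := CompleteOrthogonalIdempotents.lift_of_isNilpotent_ker f hker he he'
  let P1 : ℕ → Cor C X := fun i => if h : i < 2 * X.dim + 1 then (e' ⟨i, h⟩ : Cor C X) else 0
  have hP1 : ∀ i (h : i < 2 * X.dim + 1), P1 i = (e' ⟨i, h⟩ : Cor C X) := fun i h => dif_pos h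
  have hP1' : ∀ i (_ : ¬ i < 2 * X.dim + 1), P1 i = 0 := fun i h => dif_neg h
  have hP1R : ∀ i, P1 i ∈ R := by
    intro i
    by_cases h : i < 2 * X.dim + 1
    · rw [hP1 i h]
      exact (e' ⟨i, h⟩).2
    · rw [hP1' i h]
      exact R.zero_mem
  have hP1m : ∀ i j, i ≠ j → P1 i * P1 j = 0 := by
    intro i j hij
    by_cases h : i < 2 * X.dim + 1
    · by_cases h' : j < 2 * X.dim + 1
      · rw [hP1 i h, hP1 j h']
        have := h1.ortho (i := ⟨i, h⟩) (j := ⟨j, h'⟩) (fun hh => hij (Fin.mk.inj hh))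
        exact congrArg Subtype.val this
      · rw [hP1' j h', mul_zero]
    · rw [hP1' i h, zero_mul]
  have hP1i : ∀ i, P1 i * P1 i = P1 i := by
    intro i
    by_cases h : i < 2 * X.dim + 1
    · rw [hP1 i h]
      exact congrArg Subtype.val (h1.idem ⟨i, h⟩)
    · rw [hP1' i h, zero_mul]
  have hP1s : ∑ i ∈ Finset.range (2 * X.dim + 1), P1 i = 1 := by
    rw [Finset.sum_range]
    have h3 : ∀ i : Fin (2 * X.dim + 1), P1 i = (e' i : Cor C X) := fun i => hP1 i i.2
    rw [Finset.sum_congr rfl fun i _ => h3 i]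
    have h4 : ((∑ i, e' i : R) : Cor C X) = 1 := by rw [h1.complete]; rfl
    rw [← h4]
    exact (AddSubmonoidClass.coe_finset_sum _ _).symm
  have hP1a : ∀ i, actH C X H (P1 i) = actH C X H (P i) := by
    intro i
    by_cases h : i < 2 * X.dim + 1
    · rw [hP1 i h]
      exact congrFun h2 ⟨i, h⟩
    · have h3 : P i = 0 := hP.out i (by omega)
      rw [hP1' i h, h3]
  have hCK : IsCK H X P1 :=
  { deg := fun i => hRc _ (hP1R i)
    out := fun i hi => hP1' i (by omega)
    idem := fun i => hP1i i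
    orth := fun i j hij => hP1m j i (Ne.symm hij)
    sum := hP1s
    act_self := fun i a ha => (LinearMap.congr_fun (hP1a i) a).trans (hP.act_self i a ha)
    act_ne := fun i m a hm ha => (LinearMap.congr_fun (hP1a i) a).trans (hP.act_ne i m a hm ha) }
  obtain ⟨r, e0, hr, he0, hre, hsd⟩ := to_selfDual_in hn hCK R hRc hRt hP1R
  refine ⟨conjCK C r e0 P1, isCK_conj hCK hre, hsd, fun g i => ?_⟩
  have h3 : (r * (P1 i * e0) : Cor C X) ∈ R := R.mul_mem hr (R.mul_mem (hP1R i) he0)
  exact hRz _ h3 g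

/-- A group `G` acts on `X` by orthogonal correspondences: `ρ g` is a self-correspondence of degree
zero, `ρ 1` is the diagonal, `ρ (g h)` is the composition, and the transpose of `ρ g` is `ρ g⁻¹`. (For
instance, the graphs of automorphisms of `X`.) -/
structure OrthAction (C : TheoryData.{u, v, 0} 𝒱 ℚ) (X : 𝒱.Obj) {G : Type} [Group G]
    (ρ : G → C.A (X.prod X)) : Prop where
  deg : ∀ g, C.Deg X.dim (ρ g)
  one : ρ 1 = dg C X
  mul : ∀ g h, C.comp (ρ g) (ρ h) = ρ (g * h)
  transpose : ∀ g, tp C (ρ g) = ρ g⁻¹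

theorem equivariant' {n : ℕ} (hn : NilpotentOfIndex H X n) (hA : ∃ π, IsCK H X π) {G : Type}
    [Group G] [Finite G] (ρ : G → C.A (X.prod X)) (hρ : OrthAction C X ρ) :
    ∃ π, IsCK H X π ∧ IsSelfDual C π ∧ ∀ g i, C.comp (ρ g) (π i) = C.comp (π i) (ρ g) := by
  obtain ⟨π, hπ⟩ := hA
  have := Fintype.ofFinite G
  let σ : G →* Cor C X :=
  { toFun := fun g => (ρ g⁻¹ : C.A (X.prod X))
    map_one' := by
      have h1 := hρ.one
      rw [inv_one]
      exact h1
    map_mul' := fun g h => by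
      have h1 := hρ.mul h⁻¹ g⁻¹
      rw [mul_inv_rev]
      exact h1.symm }
  obtain ⟨π', h1, h2, h3⟩ := equivariant hn hπ σ (fun g => hρ.deg g⁻¹) (fun g => by
    have h4 := hρ.transpose g⁻¹
    exact h4)
  refine ⟨π', h1, h2, fun g i => ?_⟩
  have h4 := h3 g⁻¹ i
  have h5 : (σ g⁻¹ : C.A (X.prod X)) = ρ g := by
    show ρ (g⁻¹)⁻¹ = ρ g
    rw [inv_inv]
  rw [h5] at h4
  exact h4.symm

end Pool.Agent.V202T
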