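import Mathlib

/-!
# Inverse square roots of unipotent elements
-/

open Polynomial

namespace Pool.Agent.V202T

/-- The truncated binomial series of `(1 + X)^(-1/2)`. -/
lemma exists_sqrt_poly (n : ℕ) : ∃ p : ℚ[X], p.coeff 0 = 1 ∧ X ^ (n + 1) ∣ p ^ 2 * (1 + X) - 1 := by
  induction n with
  | zero => exact ⟨1, by simp, by simp⟩
  | succ n ih =>
    obtain ⟨p, hp, r, hr⟩ := ih
    refine ⟨p - C (r.coeff 0 / 2) * X ^ (n + 1), by simp [hp], ?_⟩
    have h1 : (p - C (r.coeff 0 / 2) * X ^ (n + 1)) ^ 2 * (1 + X) - 1 =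
        X ^ (n + 1) * (r - C (r.coeff 0) * (p * (1 + X)) +
          C (r.coeff 0 / 2) ^ 2 * X ^ (n + 1) * (1 + X)) := by
      have h2 : C (r.coeff 0) = 2 * C (r.coeff 0 / 2) := by
        rw [show (2 : ℚ[X]) = C 2 by rfl, ← C_mul]
        congr 1
        ring
      rw [h2]
      linear_combination hr
    rw [h1, pow_succ X (n + 1)]
    apply mul_dvd_mul_left
    rw [X_dvd_iff]
    simp [hp, mul_coeff_zero]

variable {R : Type*} [Ring R] [Algebra ℚ R]

lemma commute_aeval {a ν : R} (h : Commute a ν) (p : ℚ[X]) : Commute a (aeval ν p) := by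
  induction p using Polynomial.induction_on' with
  | add p q hp hq => rw [map_add]; exact hp.add_right hq
  | monomial n r =>
    rw [aeval_monomial]
    exact (Algebra.commute_algebraMap_right r a).mul_right (h.pow_right n)

lemma fixed_aeval (τ : R →+ R) (hmul : ∀ a b, τ (a * b) = τ b * τ a) (hone : τ 1 = 1)
    (hsm : ∀ (c : ℚ) a, τ (c • a) = c • τ a) {ν : R} (h : τ ν = ν) (p : ℚ[X]) :
    τ (aeval ν p) = aeval ν p := by
  have hpow : ∀ n : ℕ, τ (ν ^ n) = ν ^ n := by
    intro n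
    induction n with
    | zero => rw [pow_zero, hone]
    | succ n ih => rw [pow_succ, hmul, ih, h, ← pow_succ']; exact pow_succ ν n
  induction p using Polynomial.induction_on' with
  | add p q hp hq => rw [map_add, map_add, hp, hq]
  | monomial n r =>
    rw [aeval_monomial, ← Algebra.smul_def, hsm, hpow]

/-- **The inverse square root** of `c = 1 + ν`, `ν` nilpotent. -/
lemma exists_inv_sqrt (τ : R →+ R) (hmul : ∀ a b, τ (a * b) = τ b * τ a) (hone : τ 1 = 1)
    (hsm : ∀ (c : ℚ) a, τ (c • a) = c • τ a) (S : Subalgebra ℚ R) {c : R} (hc : τ c = c)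
    (hS : c ∈ S) {n : ℕ} (hn : (c - 1) ^ n = 0) :
    ∃ e ∈ S, τ e = e ∧ e * e * c = 1 ∧ (∀ a, Commute a c → Commute a e) ∧
      ∃ x ∈ S, e = 1 + (c - 1) * x := by
  obtain ⟨p, hp, r, hr⟩ := exists_sqrt_poly n
  have hν : τ (c - 1) = c - 1 := by rw [map_sub, hc, hone]
  have hνS : c - 1 ∈ S := S.sub_mem hS S.one_mem
  have hmem : ∀ q : ℚ[X], aeval (c - 1) q ∈ S := fun q =>
    (Algebra.adjoin_le (Set.singleton_subset_iff.2 hνS)) (aeval_mem_adjoin_singleton ℚ _)
  refine ⟨aeval (c - 1) p, hmem p, fixed_aeval τ hmul hone hsm hν p, ?_, ?_, ?_⟩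
  · have h1 := congrArg (aeval (c - 1)) hr
    rw [map_sub, map_mul, map_pow, map_add, map_one, aeval_X, map_mul, map_pow, aeval_X,
      pow_succ (c - 1) n, hn, zero_mul, zero_mul, sub_eq_zero] at h1
    rw [← pow_two]
    have h2 : (1 : R) + (c - 1) = c := by abel
    rwa [h2] at h1
  · intro a ha
    exact commute_aeval (ha.sub_right (Commute.one_right a)) p
  · obtain ⟨q, hq⟩ := X_dvd_sub_C (p := p)
    refine ⟨aeval (c - 1) q, hmem q, ?_⟩
    have h1 := congrArg (aeval (c - 1)) hq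
    rw [hp, map_sub, map_mul, aeval_X, C_1, map_one] at h1
    rw [← h1]
    abel

end Pool.Agent.V202T
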